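import Pool.Agent.H55HC.One

/-!
# Inner normals of slice discs: an integral formula, and a characterisation of the number of local maxima

Let `φ` be a slice disc in the unit ball of four-space (a smooth, properly and transversally embedded disc), and let `ξ` be a point
of the unit sphere. An inner normal of `φ` with point at infinity `ξ` is a pair `(z, n)`, `n` a unit normal vector of the
disc at `φ z`, such that the horosphere (sphere inside the unit ball which touches the unit sphere) through `φ z` with inner normal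
`n` touches the unit sphere in `ξ`, and such that the disc curves at `φ z` more strongly towards `n` than this horosphere in all
tangential directions (in the hyperbolic metric of the ball: both principal curvatures in the direction `n` are larger than `1`).
Let `N(ξ)` be the number of the inner normals with point at infinity `ξ`.

The starting files of this problem prove that the disc can be changed (by a diffeomorphism of the ball minus a point, the identity on
the sphere) into a disc with at most `m` local maxima if its total horospherical curvature is less than `2 π² (m + 1)`, and that it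
can be changed into a ribbon disc iff there is such a disc of total horospherical curvature less than `2 π²`. Here we prove:

1. For **almost every** `ξ` the number of the local maxima of the distance from the origin on the disc `push ξ ∘ φ`, which is again a
   slice disc with the same boundary, is exactly `N(ξ)`, and the distance is a Morse function.
2. For **every** Borel set `E` the integral of `N` over `E` is the horospherical curvature of `φ` towards `E`, that is, the integral
   of the density over the unit normal vectors whose points at infinity are in `E`.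
3. If for **some** Borel set `E` the curvature towards `E` is less than `(m + 1) |E|` then some `ξ` in `E` gives a disc with the same
   boundary and at most `m` local maxima.
4. If there is no slice disc with this boundary and at most `m` local maxima then `N(ξ) ≥ m + 1` for almost every `ξ`, and the
   curvature of `φ` towards `E` is at least `(m + 1) |E|` for all Borel sets `E`.
5. `N` is lower semicontinuous on the sphere: it does not drop under small changes of the point at infinity.
6. Quantisation: for almost every `ξ` the number `N(ξ)` is finite and `N` is constant near `ξ`; for all Borel sets `E` near `ξ` the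
   curvature of `φ` towards `E` is the integer multiple `N(ξ) |E|` of the measure of `E`.
7. For every single disc `φ` and every `m` the following are equivalent: for some `ξ` the disc `push ξ ∘ φ` is Morse with at most `m`
   local maxima; the curvature towards some Borel set `E` is less than `(m + 1) |E|`; `N ≤ m` on a set of positive measure;
   `N(η) ≤ m` for **all** `η` of some **open** part of the sphere.
8. For a boundary curve `γ` and a number `m` the following are equivalent: `γ` bounds a slice disc which misses the origin and has at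
   most `m` local maxima; `γ` bounds a slice disc with one of the last three properties of 7.
9. `γ` bounds a ribbon disc (no local maxima) iff it bounds a slice disc without inner normals.

So the smallest number of local maxima of slice discs of `γ` is the minimum, over all slice discs of `γ`, of the essential infimum of
`N`, and every slice knot is ribbon if and only if every slice knot bounds a slice disc which has no inner normals with points at
infinity in some open part of the sphere. In 8 a given disc with at most `m` maxima is changed by `pull ξ`, the inverse of `push ξ`,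
for a `ξ` such that the disc misses the ray through `ξ`. In 7 and 8 the number of inner normals has to be controlled uniformly up to
the boundary, and for points at infinity near `ξ` which need not be generic.
-/

set_option autoImplicit false

namespace Pool.Agent.Results.MP_752436_gt.InnerNormalsFormula

open Pool.Agent.Y503.RB
open scoped RealInnerProductSpace ENNReal
open MeasureTheory Set Metric

/-- The inner normals of the disc `φ` with point at infinity `ξ`. -/
def InnerNormals (φ : ℂ → E4) (ξ : E4) : Set (ℂ × E4) :=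
  {p | p.1 ∈ ball (0 : ℂ) 1 ∧ ‖p.2‖ = 1 ∧ (∀ v : ℂ, ⟪p.2, d1 φ v p.1⟫ = 0) ∧ Inner φ p.2 p.1 ∧
    foot (φ p.1) p.2 = ξ}

/-- The density of the horospherical curvature in the direction of the unit normal vector `n`, if the point at infinity of `n` is in
`E`. -/
noncomputable def densityTowards (φ : ℂ → E4) (E : Set E4) (n : E4) (z : ℂ) : ℝ≥0∞ :=
  E.indicator (fun _ => ENNReal.ofReal (dens φ n z)) (foot (φ z) n)

/-- The integral of the density over the circle of unit normal vectors at `φ z`. (All `L` in the supremum give the same value, see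
the first part of the theorem.) -/
noncomputable def curvatureTowardsAt (φ : ℂ → E4) (E : Set E4) (z : ℂ) : ℝ≥0∞ :=
  ⨆ (L : ℂ →ₗᵢ[ℝ] E4) (_ : ∀ w v : ℂ, ⟪L w, d1 φ v z⟫ = 0),
    ∫⁻ θ in Ico 0 (2 * Real.pi), densityTowards φ E (L ⟨Real.cos θ, Real.sin θ⟩) z

/-- The horospherical curvature of the disc `φ` towards `E`. -/
noncomputable def curvatureTowards (φ : ℂ → E4) (E : Set E4) : ℝ≥0∞ :=
  ∫⁻ z in ball (0 : ℂ) 1, curvatureTowardsAt φ E z

/-- The surface measure of the unit sphere. -/
noncomputable abbrev sph : Measure (sphere (0 : E4) 1) := (volume : Measure E4).toSphere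

/-- The part of the unit sphere in `E`. -/
def capOf (E : Set E4) : Set (sphere (0 : E4) 1) := {ξ | (ξ : E4) ∈ E}

/-- The disc `φ` changed by `push ξ`. -/
noncomputable def pushed (φ : ℂ → E4) (ξ : E4) : ℂ → E4 := fun w => push ξ (φ w)

/-- The map `push ξ` can be applied to the disc `φ`, and gives a slice disc with the same boundary values. -/
def Pushes (φ : ℂ → E4) (ξ : E4) : Prop :=
  (∀ z ∈ closedBall (0 : ℂ) 1, φ z ≠ ξ) ∧ SliceDisc (pushed φ ξ) ∧ ∀ z ∈ sphere (0 : ℂ) 1, pushed φ ξ z = φ z

/-- The local maxima of the distance from the origin on the open disc. -/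
def maxima (φ : ℂ → E4) : Set ℂ := {z | z ∈ ball (0 : ℂ) 1 ∧ IsLocalMax (fun w => ‖φ w‖ ^ 2) z}

/-- `φ` is a slice disc with the boundary values `γ`. -/
def Bounds (φ γ : ℂ → E4) : Prop := SliceDisc φ ∧ ∀ z ∈ sphere (0 : ℂ) 1, φ z = γ z

/-- The definition of the curvature does not depend on the parametrisation of the normal circle. -/
def IndependentOfCircle (φ : ℂ → E4) : Prop :=
  ∀ z ∈ ball (0 : ℂ) 1, ∀ (E : Set E4) (L : ℂ →ₗᵢ[ℝ] E4), (∀ w v : ℂ, ⟪L w, d1 φ v z⟫ = 0) →
    ∫⁻ θ in Ico 0 (2 * Real.pi), densityTowards φ E (L ⟨Real.cos θ, Real.sin θ⟩) z =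
      curvatureTowardsAt φ E z

/-- 1: for almost every point at infinity `ξ` the number of the local maxima of the distance from the origin on the pushed disc is
the number of the inner normals with point at infinity `ξ`, and the distance is a Morse function. -/
def AlmostEveryPoint (φ : ℂ → E4) : Prop :=
  ∀ᵐ ξ : sphere (0 : E4) 1 ∂sph, Pushes φ ξ ∧ (maxima (pushed φ ξ)).encard = (InnerNormals φ ξ).encard ∧
    ∀ m : ℕ, MorseDisc (pushed φ ξ) m ↔ (InnerNormals φ ξ).encard ≤ m

/-- 2: the integral formula. -/
def IntegralFormula (φ : ℂ → E4) : Prop :=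
  ∀ E : Set E4, MeasurableSet E →
    ∫⁻ ξ in capOf E, ((InnerNormals φ ξ).encard : ℝ≥0∞) ∂sph = curvatureTowards φ E

/-- 3: the local criterion. -/
def LocalCriterion (φ : ℂ → E4) : Prop :=
  ∀ (m : ℕ) (E : Set E4), MeasurableSet E → curvatureTowards φ E < (m + 1) * sph (capOf E) →
    ∃ ξ : E4, ξ ∈ E ∧ ‖ξ‖ = 1 ∧ Pushes φ ξ ∧ MorseDisc (pushed φ ξ) m

/-- 4: lower bounds for all discs of a boundary curve which does not bound a disc with at most `m` maxima. -/
def LowerBounds (φ : ℂ → E4) : Prop :=
  ∀ m : ℕ, (¬ ∃ ψ : ℂ → E4, Bounds ψ φ ∧ MorseDisc ψ m) →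
    (∀ᵐ ξ : sphere (0 : E4) 1 ∂sph, (m : ℕ∞) + 1 ≤ (InnerNormals φ ξ).encard) ∧
    ∀ E : Set E4, MeasurableSet E → (m + 1) * sph (capOf E) ≤ curvatureTowards φ E

/-- 5: the number of inner normals is lower semicontinuous. -/
def CountIsLowerSemicontinuous (φ : ℂ → E4) : Prop :=
  ∀ (k : ℕ) (ξ : E4), ‖ξ‖ = 1 → (k : ℕ∞) ≤ (InnerNormals φ ξ).encard →
    ∃ ε : ℝ, 0 < ε ∧ ∀ η : E4, ‖η‖ = 1 → ‖η - ξ‖ < ε → (k : ℕ∞) ≤ (InnerNormals φ η).encard

/-- 6: quantisation. -/
def Quantisation (φ : ℂ → E4) : Prop :=
  ∀ᵐ ξ : sphere (0 : E4) 1 ∂sph, ∃ (N : ℕ) (ε : ℝ), 0 < ε ∧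
    (∀ η : E4, ‖η‖ = 1 → ‖η - ξ‖ < ε → (InnerNormals φ η).encard = N) ∧
    ∀ E : Set E4, MeasurableSet E → (∀ η ∈ E, ‖η - ξ‖ < ε) → curvatureTowards φ E = N * sph (capOf E)

/-- 7: equivalent conditions for one disc. -/
def OneDisc (φ : ℂ → E4) (m : ℕ) : Prop :=
  List.TFAE [
    ∃ ξ : E4, ‖ξ‖ = 1 ∧ Pushes φ ξ ∧ MorseDisc (pushed φ ξ) m,
    ∃ E : Set E4, MeasurableSet E ∧ curvatureTowards φ E < (m + 1) * sph (capOf E),
    ¬ ∀ᵐ ξ : sphere (0 : E4) 1 ∂sph, (m : ℕ∞) + 1 ≤ (InnerNormals φ ξ).encard,
    ∃ (ξ : E4) (ε : ℝ), ‖ξ‖ = 1 ∧ 0 < ε ∧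
      ∀ η : E4, ‖η‖ = 1 → ‖η - ξ‖ < ε → (InnerNormals φ η).encard ≤ m]

/-- 8: the characterisations of the curves which bound slice discs with at most `m` local maxima. -/
def Characterisation (γ : ℂ → E4) (m : ℕ) : Prop :=
  List.TFAE [
    ∃ φ : ℂ → E4, Bounds φ γ ∧ (∀ z ∈ closedBall (0 : ℂ) 1, φ z ≠ 0) ∧ MorseDisc φ m,
    ∃ φ : ℂ → E4, Bounds φ γ ∧ ∃ E : Set E4, MeasurableSet E ∧ curvatureTowards φ E < (m + 1) * sph (capOf E),
    ∃ φ : ℂ → E4, Bounds φ γ ∧ ¬ ∀ᵐ ξ : sphere (0 : E4) 1 ∂sph, (m : ℕ∞) + 1 ≤ (InnerNormals φ ξ).encard,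
    ∃ φ : ℂ → E4, Bounds φ γ ∧ ∃ (ξ : E4) (ε : ℝ), ‖ξ‖ = 1 ∧ 0 < ε ∧
      ∀ η : E4, ‖η‖ = 1 → ‖η - ξ‖ < ε → (InnerNormals φ η).encard ≤ m]

theorem result :
    (∀ φ : ℂ → E4, SliceDisc φ →
      IndependentOfCircle φ ∧ AlmostEveryPoint φ ∧ IntegralFormula φ ∧ LocalCriterion φ ∧ LowerBounds φ ∧
        CountIsLowerSemicontinuous φ ∧ Quantisation φ ∧ ∀ m : ℕ, OneDisc φ m) ∧
    (∀ (γ : ℂ → E4) (m : ℕ), Characterisation γ m) ∧
    -- 9: ribbon discs
    (∀ γ : ℂ → E4,
      (∃ φ : ℂ → E4, Bounds φ γ ∧ (∀ z ∈ closedBall (0 : ℂ) 1, φ z ≠ 0) ∧ MorseDisc φ 0) ↔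
        ∃ φ : ℂ → E4, Bounds φ γ ∧ ∀ ξ : E4, InnerNormals φ ξ = ∅) := by
  refine ⟨fun φ h => ?_, fun γ m => ?_, fun γ => ?_⟩
  · have hgen := Pool.Agent.H55HC.generic_ae h
    have h3 : ∀ (m : ℕ) (E : Set E4), MeasurableSet E →
        curvatureTowards φ E < (m + 1) * sph (capOf E) →
        ∃ ξ : E4, ξ ∈ E ∧ ‖ξ‖ = 1 ∧ Pushes φ ξ ∧ MorseDisc (pushed φ ξ) m := by
      intro m E hE hT
      obtain ⟨ξ, hξE, hξ, hξm⟩ := Pool.Agent.H55HC.local_criterion h hE m hT
      exact ⟨ξ, hξE, by simp, ⟨hξ.miss, hξ.slice, hξ.bdry⟩, (hξ.morseDisc m).2 hξm⟩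
    refine ⟨fun z hz E L hL => Pool.Agent.H55HC.param h.patch hz E L hL, ?_, fun E hE =>
      Pool.Agent.H55HC.formula h.patch measurableSet_ball (subset_refl _) hE, h3,
      fun m hm => ⟨?_, ?_⟩, fun k ξ hξ hk => ?_, Pool.Agent.H55HC.quant h, fun m => ?_⟩
    · filter_upwards [hgen] with ξ hξ
      exact ⟨⟨hξ.miss, hξ.slice, hξ.bdry⟩, hξ.count, hξ.morseDisc⟩
    · filter_upwards [hgen] with ξ hξ
      by_contra hcon
      have h4 : (InnerNormals φ (ξ : E4)).encard ≤ m := by
        rw [not_le] at hcon
        exact Order.lt_add_one_iff_of_not_isMax (by simp) |>.1 hcon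
      exact hm ⟨_, ⟨hξ.slice, hξ.bdry⟩, (hξ.morseDisc m).2 h4⟩
    · intro E hE
      by_contra hcon
      rw [not_le] at hcon
      obtain ⟨ξ, -, -, h5, h7⟩ := h3 m E hE hcon
      exact hm ⟨_, ⟨h5.2.1, h5.2.2⟩, h7⟩
    · obtain ⟨ε, hε, h4⟩ := Metric.eventually_nhds_iff.1 (Pool.Agent.H55HC.lsc h hξ hk)
      exact ⟨ε, hε, fun η hη hd => h4 (by rw [dist_eq_norm]; exact hd) hη⟩
    · unfold OneDisc
      simp only [Pushes, and_assoc]
      exact Pool.Agent.H55HC.one_tfae h m
  · unfold Characterisation
    simp only [Bounds, and_assoc]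
    exact Pool.Agent.H55HC.maxima_tfae γ m
  · simp only [Bounds, and_assoc]
    exact (Pool.Agent.H55HC.ribbon_tfae γ).out 0 3

end Pool.Agent.Results.MP_752436_gt.InnerNormalsFormula
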